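import Pool.Agent.Helper70.ML.St

/-!
# Project ML, module AN: all alternating groups from `A_5`
-/

set_option autoImplicit false

namespace Pool.Agent.Helper82.ML

open Pool.Agent.Helper70.ML Pool.Agent.Helper75.MX
open scoped Nat

theorem stab_AN (n : ℕ) : Nonempty (alternatingGroup (Fin n) ≃*
    MulAction.stabilizer (alternatingGroup (Fin (n + 1))) (Fin.last n)) := by
  classical
  let f : Fin n ≃ {x : Fin (n + 1) // x ≠ Fin.last n} := finSuccAboveEquiv (Fin.last n)
  let ph : alternatingGroup (Fin n) →* Equiv.Perm (Fin (n + 1)) :=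
    (Equiv.Perm.extendDomainHom f).comp (alternatingGroup (Fin n)).subtype
  have hph : ∀ σ : alternatingGroup (Fin n), ph σ = (σ : Equiv.Perm (Fin n)).extendDomain f := fun _ => rfl
  have h1 : ∀ σ, ph σ ∈ alternatingGroup (Fin (n + 1)) := by
    intro σ
    rw [Equiv.Perm.mem_alternatingGroup, hph, Equiv.Perm.sign_extendDomain]
    exact Equiv.Perm.mem_alternatingGroup.1 σ.2
  let ps : alternatingGroup (Fin n) →* alternatingGroup (Fin (n + 1)) := ph.codRestrict _ h1
  have h2 : ∀ σ, ps σ ∈ MulAction.stabilizer (alternatingGroup (Fin (n + 1))) (Fin.last n) := by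
    intro σ
    rw [MulAction.mem_stabilizer_iff]
    change (ph σ) (Fin.last n) = Fin.last n
    rw [hph]
    exact Equiv.Perm.extendDomain_apply_not_subtype _ _ (by simp)
  let ch : alternatingGroup (Fin n) →* MulAction.stabilizer (alternatingGroup (Fin (n + 1))) (Fin.last n) :=
    ps.codRestrict _ h2
  refine ⟨MulEquiv.ofBijective ch ⟨?_, ?_⟩⟩
  · intro σ τ h
    have h3 : ph σ = ph τ := congrArg (fun z => ((z : MulAction.stabilizer (alternatingGroup (Fin (n + 1)))
      (Fin.last n)) : alternatingGroup (Fin (n + 1))).1) h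
    exact Subtype.ext (Equiv.Perm.extendDomainHom_injective f h3)
  · intro τ
    have hτ : (τ : alternatingGroup (Fin (n + 1))).1 (Fin.last n) = Fin.last n := by
      have := τ.2
      rw [MulAction.mem_stabilizer_iff] at this
      exact this
    set t : Equiv.Perm (Fin (n + 1)) := (τ : alternatingGroup (Fin (n + 1))).1 with ht
    have hne : ∀ x : Fin (n + 1), (t x ≠ Fin.last n) ↔ (x ≠ Fin.last n) := by
      intro x
      constructor
      · intro h hx
        exact h (by rw [hx, hτ])
      · intro h hx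
        exact h (t.injective (by rw [hx, hτ]))
    let σ : Equiv.Perm (Fin n) := f.permCongr.symm (t.subtypePerm hne)
    have hσ : σ.extendDomain f = t := by
      ext1 x
      by_cases hx : x = Fin.last n
      · rw [Equiv.Perm.extendDomain_apply_not_subtype _ _ (by simpa using hx), hx, hτ]
      · rw [Equiv.Perm.extendDomain_apply_subtype σ f (b := x) (show x ≠ Fin.last n from hx)]
        simp [σ]
    have hs : σ ∈ alternatingGroup (Fin n) := by
      rw [Equiv.Perm.mem_alternatingGroup, ← Equiv.Perm.sign_extendDomain σ f, hσ]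
      exact Equiv.Perm.mem_alternatingGroup.1 (τ : alternatingGroup (Fin (n + 1))).2
    refine ⟨⟨σ, hs⟩, ?_⟩
    apply Subtype.ext
    apply Subtype.ext
    exact hσ

theorem fact_AN {n : ℕ} (hn : 2 ≤ n) : n ! / 2 * (n + 1) = (n + 1)! / 2 := by
  have h1 : 2 ∣ n ! := Nat.dvd_factorial (by norm_num) hn
  obtain ⟨c, hc⟩ := h1
  rw [Nat.factorial_succ, hc]
  have h2 : (n + 1) * (2 * c) = 2 * ((n + 1) * c) := by ring
  rw [h2, Nat.mul_div_cancel_left _ (by norm_num), Nat.mul_div_cancel_left _ (by norm_num)]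
  ring

theorem hAN (hISO : StISO) (hMO : StMO) (hPTS : StPTS) (hA5 : StA5) : StAN := by
  intro n hn
  induction n, hn using Nat.le_induction with
  | base =>
    obtain ⟨k, hk, hk2⟩ := hA5
    refine ⟨k, hk, ?_⟩
    have : 5 ! / 2 = 60 := by decide
    rw [this]
    exact hk2
  | succ n hn ih =>
    obtain ⟨k, hk, hk2⟩ := ih
    obtain ⟨e⟩ := stab_AN n
    have h1 := (hISO _ _ ⟨e⟩).1 k hk
    obtain ⟨l, hl, hok, hap⟩ := hPTS (n + 1) (by omega) (Fin.last n)
    have h2 := hMO (alternatingGroup (Fin (n + 1))) (Fin (n + 1)) (Fin.last n) k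
      (2 * Nat.log 2 (n + 1)) (1 / ((n + 1 : ℕ) : ℝ)) h1
      ⟨l, hl, hok, by
        rw [← hap]
        congr 1
        funext x
        congr⟩
    refine ⟨_, h2, ?_⟩
    rw [pow_add, ← fact_AN (by omega), mul_pow]
    refine Nat.mul_le_mul hk2 ?_
    rw [mul_comm, pow_mul]
    have h3 : 2 ^ Nat.log 2 (n + 1) ≤ n + 1 := Nat.pow_log_le_self 2 (by omega)
    calc (2 ^ Nat.log 2 (n + 1)) ^ 2 ≤ (n + 1) ^ 2 := Nat.pow_le_pow_left h3 2
      _ ≤ (n + 1) ^ 6 := Nat.pow_le_pow_right (by omega) (by norm_num)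

end Pool.Agent.Helper82.ML
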