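import Pool.Agent.Helper70.ML.St

/-!
# Project ML, module HYP: the hypothesis is inherited by normal subgroups and quotients
-/

set_option autoImplicit false

namespace Pool.Agent.Helper82.ML

open Pool.Agent.Helper70.ML Pool.Agent.Helper75.MX

/-- transfer of the conclusion along an isomorphism -/
theorem transfer_HYP (hISO : StISO) {C : ℝ} {A B : Type} [Group A] [Group B] (e : A ≃* B)
    (h : QO B → ¬ AltQ B → Good C B) : QO A → ¬ AltQ A → Good C A := by
  intro h1 h2
  have h3 := hISO A B ⟨e⟩
  have h4 := hISO B A ⟨e.symm⟩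
  exact h4.2.1 C (h (h3.2.2.1 h1) (fun h5 => h2 (h4.2.2.2 h5)))

theorem hHYP (hISO : StISO) : StHYP := by
  intro C G _ _ hG
  refine ⟨?_, ?_, ?_⟩
  · intro K hK H hH N hN
    have hsub : (H.map K.subtype).IsSubnormal := hH.trans' hK.isSubnormal
    have e : H ≃* H.map K.subtype := H.equivMapOfInjective K.subtype K.subtype_injective
    have hN' : (N.map (e : H →* H.map K.subtype)).Normal :=
      hN.map (e : H →* H.map K.subtype) e.surjective
    exact transfer_HYP hISO (QuotientGroup.congr N (N.map (e : H →* H.map K.subtype)) e rfl)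
      (hG (H.map K.subtype) hsub (N.map (e : H →* H.map K.subtype)))
  · intro M hM H hH N hN
    have hsub : (H.comap (QuotientGroup.mk' M)).IsSubnormal := hH.comap _
    set f : H.comap (QuotientGroup.mk' M) →* H ⧸ N :=
      (QuotientGroup.mk' N).comp ((QuotientGroup.mk' M).subgroupComap H) with hf
    have hs : Function.Surjective f := by
      rw [hf, MonoidHom.coe_comp]
      exact (QuotientGroup.mk'_surjective N).comp
        (MonoidHom.subgroupComap_surjective_of_surjective _ _ (QuotientGroup.mk'_surjective M))
    exact transfer_HYP hISO (QuotientGroup.quotientKerEquivOfSurjective f hs).symm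
      (hG (H.comap (QuotientGroup.mk' M)) hsub f.ker)
  · have e : (⊤ : Subgroup G) ⧸ (⊥ : Subgroup (⊤ : Subgroup G)) ≃* G :=
      QuotientGroup.quotientBot.trans Subgroup.topEquiv
    exact transfer_HYP hISO e.symm (hG ⊤ Subgroup.IsSubnormal.top ⊥)

end Pool.Agent.Helper82.ML
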