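import Pool.Agent.Helper70.ML.St2

/-!
# Project ML, module GRP: subgroups of block matrices
-/

set_option autoImplicit false

namespace Pool.Agent.Helper82.ML

open Pool.Agent.Helper70.ML Pool.Agent.Helper75.MX

theorem zero_GRP {n : ℕ} {F : Type} [Field F] [Finite F] (Z : Fin n → Fin n → Prop)
    (hZ : ∀ a b c, Z a b → a ≠ b → c = a ∨ c = b ∨ Z a c ∨ Z c b) :
    ∃ K : Subgroup (SLn n F), ∀ g, g ∈ K ↔ ∀ a b : Fin n, a ≠ b → Z a b → g.1 a b = 0 := by
  have hfin : Finite (SLn n F) := by
    unfold SLn Matrix.SpecialLinearGroup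
    infer_instance
  let S : Submonoid (SLn n F) :=
    { carrier := {g | ∀ a b : Fin n, a ≠ b → Z a b → g.1 a b = 0}
      one_mem' := by
        intro a b hab _
        rw [Matrix.SpecialLinearGroup.coe_one]
        exact Matrix.one_apply_ne hab
      mul_mem' := by
        intro g h hg hh a b hab hz
        rw [Matrix.SpecialLinearGroup.coe_mul, Matrix.mul_apply]
        refine Finset.sum_eq_zero fun c _ => ?_
        rcases hZ a b c hz hab with h1 | h1 | h1 | h1
        · rw [h1, hh a b hab hz, mul_zero]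
        · rw [h1, hg a b hab hz, zero_mul]
        · by_cases hac : a = c
          · rw [← hac, hh a b hab hz, mul_zero]
          · rw [hg a c hac h1, zero_mul]
        · by_cases hcb : c = b
          · rw [hcb, hg a b hab hz, zero_mul]
          · rw [hh c b hcb h1, mul_zero] }
  refine ⟨{ S with
    inv_mem' := by
      intro g hg
      have h1 : g⁻¹ = g ^ (Nat.card (SLn n F) - 1) := by
        have h2 : 0 < Nat.card (SLn n F) := Nat.card_pos
        rw [inv_eq_iff_mul_eq_one, ← pow_succ', Nat.sub_add_cancel h2, pow_card_eq_one']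
      rw [h1]
      exact S.pow_mem hg _ }, fun g => Iff.rfl⟩

theorem hGRP : StGRP := by
  intro n F _ _ j
  constructor
  · obtain ⟨K, hK⟩ := zero_GRP (F := F) (fun a b : Fin n => j ≤ (a : ℕ) ∨ j ≤ (b : ℕ))
      (by
        rintro a b c (h | h) _
        · exact Or.inr (Or.inr (Or.inl (Or.inl h)))
        · exact Or.inr (Or.inr (Or.inr (Or.inr h))))
    exact ⟨K, fun g => hK g⟩
  · obtain ⟨K, hK⟩ := zero_GRP (F := F)
      (fun a b : Fin n => (j + 1 ≤ (a : ℕ) ∨ j + 1 ≤ (b : ℕ)) ∨ (b : ℕ) = j)
      (by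
        rintro a b c ((h | h) | h) _
        · exact Or.inr (Or.inr (Or.inl (Or.inl (Or.inl h))))
        · exact Or.inr (Or.inr (Or.inr (Or.inl (Or.inr h))))
        · exact Or.inr (Or.inr (Or.inr (Or.inr h))))
    refine ⟨K, fun g => ?_⟩
    rw [hK]
    constructor
    · intro h
      exact ⟨fun a b hab hz => h a b hab (Or.inl hz), fun a b hab hz => h a b hab (Or.inr hz)⟩
    · rintro ⟨h1, h2⟩ a b hab (hz | hz)
      · exact h1 a b hab hz
      · exact h2 a b hab hz

end Pool.Agent.Helper82.ML
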