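import Pool.Agent.Helper70.ML.St

/-!
# Project ML, module CAR: Carmichael's presentation, upper bound
-/

set_option autoImplicit false

namespace Pool.Agent.Helper82.ML

open Pool.Agent.Helper70.ML Pool.Agent.Helper75.MX
open scoped Nat

/-- representatives of the cosets -/
def rp_CAR {K : Type} [Group K] {m : ℕ} (x : Fin m → K) (y : K) : Fin m ⊕ Fin 3 → K
  | Sum.inl i => y⁻¹ * x i
  | Sum.inr 0 => 1
  | Sum.inr 1 => y
  | Sum.inr 2 => y⁻¹

theorem cube_CAR {K : Type} [Group K] {a : K} (h : a ^ 3 = 1) : a * a = a⁻¹ := by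
  rw [eq_inv_iff_mul_eq_one, ← h, pow_succ, pow_two]

theorem step_CAR {K : Type} [Group K] {m : ℕ} (x : Fin m → K) (y : K) (hx : ∀ i, x i ^ 3 = 1)
    (hy : y ^ 3 = 1) (hxy : ∀ i, (x i * y) ^ 2 = 1) (hxx : ∀ i j, i ≠ j → (x i * x j) ^ 2 = 1)
    (t : Fin m ⊕ Fin 3) (g : K) (hg : g = y ∨ ∃ j, g = x j) :
    ∃ h ∈ Subgroup.closure (Set.range x), ∃ t' : Fin m ⊕ Fin 3, rp_CAR x y t * g = h * rp_CAR x y t' := by
  have mem : ∀ j, x j ∈ Subgroup.closure (Set.range x) := fun j => Subgroup.subset_closure ⟨j, rfl⟩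
  have memi : ∀ j, (x j)⁻¹ ∈ Subgroup.closure (Set.range x) := fun j => inv_mem (mem j)
  have hyy : y * y = y⁻¹ := cube_CAR hy
  have hxi : ∀ i, x i * x i = (x i)⁻¹ := fun i => cube_CAR (hx i)
  have hxyi : ∀ i, x i * y = y⁻¹ * (x i)⁻¹ := by
    intro i
    rw [← mul_inv_rev, eq_inv_iff_mul_eq_one, ← hxy i, pow_two]
  have hyxi : ∀ i, y * x i = (x i)⁻¹ * y⁻¹ := by
    intro i
    have h1 := hxyi i
    have h2 : (x i)⁻¹ * (x i * y) * x i = (x i)⁻¹ * (y⁻¹ * (x i)⁻¹) * x i := by rw [h1]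
    have h3 : (x i)⁻¹ * (x i * y) * x i = y * x i := by group
    have h4 : (x i)⁻¹ * (y⁻¹ * (x i)⁻¹) * x i = (x i)⁻¹ * y⁻¹ := by group
    rw [h3, h4] at h2
    exact h2
  have hxxi : ∀ i j, i ≠ j → x i * x j = (x j)⁻¹ * (x i)⁻¹ := by
    intro i j hij
    rw [← mul_inv_rev, eq_inv_iff_mul_eq_one, ← hxx i j hij, pow_two]
  rcases t with i | t
  · -- y⁻¹ x_i
    rcases hg with rfl | ⟨j, rfl⟩
    · refine ⟨(x i)⁻¹, memi i, Sum.inl i, ?_⟩
      change g⁻¹ * x i * g = (x i)⁻¹ * (g⁻¹ * x i)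
      calc g⁻¹ * x i * g = g * (g * x i) * g := by rw [← hyy]; group
        _ = g * ((x i)⁻¹ * g⁻¹) * g := by rw [hyxi]
        _ = g * (x i)⁻¹ := by group
        _ = g * x i * x i := by rw [← hxi]; group
        _ = (x i)⁻¹ * (g⁻¹ * x i) := by rw [hyxi]; group
    · by_cases hij : i = j
      · subst hij
        refine ⟨x i, mem i, Sum.inr 1, ?_⟩
        change y⁻¹ * x i * x i = x i * y
        rw [mul_assoc, hxi, hxyi]
      · refine ⟨x j * (x i)⁻¹, mul_mem (mem j) (memi i), Sum.inl i, ?_⟩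
        change y⁻¹ * x i * x j = x j * (x i)⁻¹ * (y⁻¹ * x i)
        calc y⁻¹ * x i * x j = y⁻¹ * (x i * x j) := by group
          _ = y⁻¹ * ((x j)⁻¹ * (x i)⁻¹) := by rw [hxxi i j hij]
          _ = (y⁻¹ * (x j)⁻¹) * (x i)⁻¹ := by group
          _ = x j * y * (x i)⁻¹ := by rw [← hxyi]
          _ = x j * (y * x i) * x i := by rw [← hxi]; group
          _ = x j * ((x i)⁻¹ * y⁻¹) * x i := by rw [hyxi]
          _ = x j * (x i)⁻¹ * (y⁻¹ * x i) := by group
  · fin_cases t
    · rcases hg with rfl | ⟨j, rfl⟩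
      · refine ⟨1, one_mem _, Sum.inr 1, ?_⟩
        change 1 * g = 1 * g
        rfl
      · refine ⟨x j, mem j, Sum.inr 0, ?_⟩
        change 1 * x j = x j * 1
        rw [one_mul, mul_one]
    · rcases hg with rfl | ⟨j, rfl⟩
      · refine ⟨1, one_mem _, Sum.inr 2, ?_⟩
        change g * g = 1 * g⁻¹
        rw [one_mul, hyy]
      · refine ⟨(x j)⁻¹, memi j, Sum.inr 2, ?_⟩
        change y * x j = (x j)⁻¹ * y⁻¹
        exact hyxi j
    · rcases hg with rfl | ⟨j, rfl⟩
      · refine ⟨1, one_mem _, Sum.inr 0, ?_⟩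
        change g⁻¹ * g = 1 * 1
        rw [one_mul, inv_mul_cancel]
      · refine ⟨1, one_mem _, Sum.inl j, ?_⟩
        change y⁻¹ * x j = 1 * (y⁻¹ * x j)
        rw [one_mul]

theorem fact_CAR (m : ℕ) : (m + 2)! / 2 * (m + 3) = (m + 1 + 2)! / 2 := by
  have h1 : 2 ∣ (m + 2)! := Nat.dvd_factorial (by norm_num) (by omega)
  obtain ⟨c, hc⟩ := h1
  have h3 : (m + 1 + 2)! = (m + 3) * (m + 2)! := Nat.factorial_succ (m + 2)
  rw [h3, hc]
  have h2 : (m + 3) * (2 * c) = 2 * ((m + 3) * c) := by ring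
  rw [h2, Nat.mul_div_cancel_left _ (by norm_num), Nat.mul_div_cancel_left _ (by norm_num)]
  ring

theorem hCAR : StCAR := by
  intro K _ _ m
  induction m with
  | zero =>
    intro x _ _
    have h1 : Set.range x = ∅ := Set.range_eq_empty x
    rw [h1, Subgroup.closure_empty]
    simp
  | succ m ih =>
    intro x hx hxx
    set x' : Fin m → K := fun i => x i.castSucc with hx'
    set y : K := x (Fin.last m) with hy
    set H : Subgroup K := Subgroup.closure (Set.range x') with hH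
    have hcard := ih x' (fun i => hx _) (fun i j hij => hxx _ _ (fun h => hij (Fin.castSucc_injective m h)))
    have hstep := step_CAR x' y (fun i => hx _) (hx _)
      (fun i => hxx _ _ (Fin.castSucc_lt_last i).ne)
      (fun i j hij => hxx _ _ (fun h => hij (Fin.castSucc_injective m h)))
    have hgen : ∀ g ∈ Set.range x, g = y ∨ ∃ j, g = x' j := by
      rintro _ ⟨i, rfl⟩
      induction i using Fin.lastCases with
      | last => exact Or.inl rfl
      | cast i => exact Or.inr ⟨i, rfl⟩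
    have hcube : ∀ g ∈ Set.range x, g⁻¹ = g * g := by
      rintro _ ⟨i, rfl⟩
      exact (cube_CAR (hx i)).symm
    have hmul : ∀ g ∈ Set.range x, ∀ z : K, (∃ h ∈ H, ∃ t, z = h * rp_CAR x' y t) →
        ∃ h ∈ H, ∃ t, z * g = h * rp_CAR x' y t := by
      rintro g hg _ ⟨h, hh, t, rfl⟩
      obtain ⟨h', hh', t', ht'⟩ := hstep t g (hgen g hg)
      exact ⟨h * h', mul_mem hh hh', t', by rw [mul_assoc, ht', mul_assoc]⟩
    have hall : ∀ z ∈ Subgroup.closure (Set.range x), ∃ h ∈ H, ∃ t, z = h * rp_CAR x' y t := by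
      intro z hz
      induction hz using Subgroup.closure_induction_right with
      | one => exact ⟨1, one_mem _, Sum.inr 0, by simp [rp_CAR]⟩
      | mul_right a ha g hg ih => exact hmul g hg a ih
      | mul_inv_cancel a ha g hg ih =>
        rw [hcube g hg, ← mul_assoc]
        exact hmul g hg _ (hmul g hg a ih)
    have hle : Nat.card (Subgroup.closure (Set.range x)) ≤ Nat.card (H × (Fin m ⊕ Fin 3)) := by
      have hsub : ((Subgroup.closure (Set.range x) : Subgroup K) : Set K) ⊆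
          Set.range (fun p : H × (Fin m ⊕ Fin 3) => (p.1 : K) * rp_CAR x' y p.2) := by
        intro z hz
        obtain ⟨h, hh, t, rfl⟩ := hall z hz
        exact ⟨(⟨h, hh⟩, t), rfl⟩
      calc Nat.card (Subgroup.closure (Set.range x))
          ≤ Nat.card (Set.range (fun p : H × (Fin m ⊕ Fin 3) => (p.1 : K) * rp_CAR x' y p.2)) :=
            Nat.card_mono (Set.toFinite _) hsub
        _ ≤ Nat.card (H × (Fin m ⊕ Fin 3)) := Finite.card_range_le _
    refine hle.trans ?_
    rw [Nat.card_prod, ← fact_CAR]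
    refine Nat.mul_le_mul hcard ?_
    simp

end Pool.Agent.Helper82.ML
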