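import Pool.Agent.Helper70.ML.St

/-!
# Project ML, module ISO: transport along isomorphisms
-/

set_option autoImplicit false

namespace Pool.Agent.Helper82.ML

open Pool.Agent.Helper70.ML Pool.Agent.Helper75.MX
open scoped commutatorElement

theorem mix_ISO {G G' : Type} [Group G] [Group G'] (e : G ≃* G') {k : ℕ} (h : Mix G k) : Mix G' k := by
  classical
  obtain ⟨l, hlen, hok, happ⟩ := h
  refine ⟨l.map (fun a => (e.toMonoidHom a.1, a.2)), by simpa using hlen, ?_, ?_⟩
  · intro a ha
    obtain ⟨b, hb, rfl⟩ := List.mem_map.1 ha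
    exact hok b hb
  · have h1 := app_comp e.toMonoidHom l (dlt G')
    have h2 : dlt G' ∘ e.toMonoidHom = dlt G := by
      funext x
      simp [dlt]
    rw [h2, happ] at h1
    funext y
    have h3 := congrFun h1 (e.symm y)
    have h4 : e.toMonoidHom (e.symm y) = y := by simp
    rw [Function.comp_apply, h4] at h3
    rw [← h3]
    simp only [uni]
    rw [Nat.card_congr e.toEquiv]

theorem map_center_ISO {G G' : Type} [Group G] [Group G'] (e : G ≃* G') :
    (Subgroup.center G).map (e : G →* G') = Subgroup.center G' := by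
  ext y
  rw [Subgroup.mem_map, Subgroup.mem_center_iff]
  constructor
  · rintro ⟨x, hx, rfl⟩ g
    rw [Subgroup.mem_center_iff] at hx
    have h1 := hx (e.symm g)
    have h2 := congrArg e h1
    simpa using h2
  · intro h
    refine ⟨e.symm y, ?_, by simp⟩
    rw [Subgroup.mem_center_iff]
    intro g
    have h1 := h (e g)
    have h2 := congrArg e.symm h1
    simpa using h2

theorem hISO : StISO := by
  intro G G' _ _ ⟨e⟩
  have eq : G ⧸ Subgroup.center G ≃* G' ⧸ Subgroup.center G' :=
    QuotientGroup.congr _ _ e (map_center_ISO e)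
  refine ⟨fun k h => mix_ISO e h, ?_, ?_, ?_⟩
  · rintro C ⟨k, hk, hkC⟩
    refine ⟨k, mix_ISO e hk, ?_⟩
    rwa [← Nat.card_congr e.toEquiv]
  · rintro ⟨h1, h2, h3⟩
    refine ⟨?_, ?_, ?_⟩
    · have h4 : (commutator G).map (e : G →* G') = commutator G' := by
        rw [commutator_def, Subgroup.map_commutator, commutator_def]
        rw [Subgroup.map_top_of_surjective (e : G →* G') e.surjective]
      rw [← h4, h1]
      exact Subgroup.map_top_of_surjective (e : G →* G') e.surjective
    · exact (MulEquiv.isSimpleGroup_congr eq).1 h2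
    · rwa [← Nat.card_congr (Subgroup.centerCongr e).toEquiv]
  · rintro ⟨n, hn, ⟨f⟩⟩
    exact ⟨n, hn, ⟨eq.symm.trans f⟩⟩

end Pool.Agent.Helper82.ML
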